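import Pool.Agent.Y998.CN.Tor
import Pool.Agent.TH268.PD.TopLip

/-!
# Local Poisson-Dirichlet law of nearest neighbour stirring: statements
-/

set_option autoImplicit false

namespace Pool.Agent.Y998.LP

open Finset Equiv Filter Topology Pool.Agent.Y998.ST Pool.Agent.Y998.CN
open Pool.Agent.TH268.PD (Cyc cyOf frac top)

/-- entropy -/
noncomputable def ent {ι : Type} [Fintype ι] (p : ι → ℝ) : ℝ := -∑ i, p i * Real.log (p i)

/-- EN2: eigenfunctions of the complete graph Hamiltonian, with a constant that does not depend on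
the number of colours. -/
def S_EN2 : Prop := ∀ (V : Type) [Fintype V] [DecidableEq V] (q j : ℕ) (lam : ℝ)
  (f : (V → Fin q) → ℝ), f ≠ 0 →
  (∀ c, ∑ c', ham q (fun _ _ : V => (1 : ℝ)) c c' * f c' = lam * f c) →
  (∀ (ν : V → Option (Fin q)) (μ : Fin q → ℕ), (univ.filter fun x => ν x ≠ none).card ≤ j →
    ∑ c : V → Fin q, (if (∀ x a, ν x = some a → c x = a) ∧
      (∀ a, (univ.filter fun x => c x = a).card = μ a) then f c else 0) = 0) →
  ((j : ℝ) + 1) * Fintype.card V / 2 ≤ lam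

/-- ID: return probability of random transpositions. -/
def S_ID : Prop := ∀ (V : Type) [Fintype V] [DecidableEq V] (s : ℝ), 0 ≤ s →
  2 * ((Fintype.card V : ℝ) ^ 2 + 1) ≤ Real.exp (s / 2) →
  ((Fintype.card V).factorial : ℝ) *
    stirLaw (fun _ _ : V => (1 : ℝ)) (s / Fintype.card V) 1 ≤ 2

/-- RC: comparison of return probabilities. -/
def S_RC : Prop := ∀ (V : Type) [Fintype V] [DecidableEq V] (J J' : V → V → ℝ) (t : ℝ), 0 ≤ t →
  (∀ (q : ℕ) (f : (V → Fin q) → ℝ),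
    ∑ x, ∑ y, J' x y * DD f x y ≤ ∑ x, ∑ y, J x y * DD f x y) →
  stirLaw J t 1 ≤ stirLaw J' t 1

/-- RF: the return probability factorises over blocks. -/
def S_RF : Prop := ∀ (V I : Type) [Fintype V] [DecidableEq V] [Fintype I] [DecidableEq I]
  (b : V → I) (J : V → V → ℝ) (t : ℝ), (∀ x y, b x ≠ b y → J x y = 0) →
  stirLaw J t 1 = ∏ i, stirLaw (fun x y : {v : V // b v = i} => J x y) t 1

/-- POS: all permutations have positive probability. -/
def S_POS : Prop := ∀ (d L : ℕ) [NeZero L], 3 ≤ L → ∀ t : ℝ, 0 < t →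
  ∀ g : Perm (Fin d → ZMod L), 0 < stirLaw (nnRate d L) t g

/-- PIN: Pinsker's inequality. -/
def S_PIN : Prop := ∀ (ι : Type) [Fintype ι] (a b : ι → ℝ), (∀ i, 0 < a i) → (∀ i, 0 < b i) →
  ∑ i, a i = 1 → ∑ i, b i = 1 →
  (∑ i, |a i - b i|) ^ 2 / 2 ≤ ∑ i, a i * Real.log (a i / b i)

/-- DPI: relative entropy decreases under convolution. -/
def S_DPI : Prop := ∀ (G : Type) [Group G] [Fintype G] (a b r : G → ℝ), (∀ g, 0 < a g) →
  (∀ g, 0 < b g) → (∀ g, 0 ≤ r g) → ∑ g, r g = 1 →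
  ∑ g, (∑ k, a k * r (k⁻¹ * g)) *
      Real.log ((∑ k, a k * r (k⁻¹ * g)) / (∑ k, b k * r (k⁻¹ * g))) ≤
    ∑ g, a g * Real.log (a g / b g)

/-- ENT: for a convolution semigroup on a finite group the entropy increment bounds the change of
the law under a jump. -/
def S_ENT : Prop := ∀ (G : Type) [Group G] [Fintype G] (μ : ℝ → G → ℝ) (c : G → ℝ),
  (∀ t, 0 < t → ∀ g, 0 < μ t g) → (∀ t, 0 ≤ t → ∑ g, μ t g = 1) →
  (∀ s t, 0 ≤ s → 0 ≤ t → ∀ g, μ (s + t) g = ∑ k, μ s k * μ t (k⁻¹ * g)) →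
  (∀ g, Continuous fun t => μ t g) →
  (∀ h, h ≠ 1 → Tendsto (fun s => μ s h / s) (𝓝[>] 0) (𝓝 (c h))) →
  ∀ t, 0 < t → t / 2 * ∑ h, c h * ((∑ g, |μ t (h⁻¹ * g) - μ t g|) ^ 2 / 2) ≤
    ent (μ t) - ent (μ (t / 2))

/-- UP: upper bound of the entropy of the stirring permutation. -/
def S_UP : Prop := ∀ d : ℕ, 1 ≤ d → ∃ C : ℝ, 0 ≤ C ∧ ∀ (L : ℕ) [NeZero L], 3 ≤ L →
  ∀ t : ℝ, 1 ≤ t → ent (stirLaw (nnRate d L) t) ≤ (L : ℝ) ^ d * ((d : ℝ) / 2 * Real.log t + C)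

/-- the `ℓ¹` distance on the torus -/
def tdist {d L : ℕ} (x y : Fin d → ZMod L) : ℕ := ∑ i, (x i - y i).valMinAbs.natAbs

/-- DIST: subadditive functions of transpositions. -/
def S_DIST : Prop := ∀ (d L : ℕ) [NeZero L], 3 ≤ L → ∀ (N : Perm (Fin d → ZMod L) → ℝ) (δ : ℝ),
  0 ≤ δ → N 1 = 0 → (∀ g h, N (g * h) ≤ N g + N h) →
  (∀ x i, N (swap x (Function.update x i (x i + 1))) ≤ δ) →
  ∀ x y, N (swap x y) ≤ 2 * tdist x y * δ

/-- the fractions of `B` covered by the cycles of `g` -/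
noncomputable def bfrac {V : Type} (B : Finset V) (g : Perm V) (γ : Cyc g) : ℝ :=
  (Nat.card {v : V // v ∈ B ∧ cyOf g v = γ} : ℝ) / B.card

open Classical in
/-- SAMP: the ordered fractions from the cycles of `k` random points of `B`. -/
def S_SAMP : Prop := ∀ (V : Type) [Fintype V] [DecidableEq V] (B : Finset V) (k : ℕ), 0 < k →
  0 < B.card → ∀ (g : Perm V) (r : (Fin k → V) → Perm (Fin k)),
  (∀ b, Function.Injective b → ∀ i j, (r b).SameCycle i j ↔ g.SameCycle (b i) (b j)) →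
  ∀ (m : ℕ) (f : (Fin m → ℝ) → ℝ) (C Λ : ℝ), 0 ≤ Λ → (∀ u, |f u| ≤ C) →
  (∀ (u v : Fin m → ℝ) (e : ℝ), 0 ≤ e → (∀ i, |u i - v i| ≤ e) → |f u - f v| ≤ Λ * e) →
  |(∑ b ∈ Fintype.piFinset (fun _ : Fin k => B), if Function.Injective b then
      f (fun i => top (frac (r b)) i) else 0) -
    (B.card : ℝ) ^ k * f (fun i => top (bfrac B g) i)| ≤
    (B.card : ℝ) ^ k * (Λ / Real.sqrt k) + C * ((k : ℝ) ^ 2 * (B.card : ℝ) ^ (k - 1))

end Pool.Agent.Y998.LP
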