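import Pool.Agent.Y998.LP.Master
import Pool.Agent.Y220.LP.ID
import Pool.Agent.Y799.LP.RL
import Pool.Agent.Y350.LP.Pos
import Pool.Agent.Y768.LP.KL
import Pool.Agent.Y415.LP.ENT
import Pool.Agent.Y415.LP.UP
import Pool.Agent.Y259.LP.SAMP
import Pool.Agent.Y495.LP.EN2
import Pool.Agent.Y950.CN.PATH
import Pool.Agent.Y641.CN.PB
import Pool.Agent.Y664.CN.TR
import Pool.Agent.Y154.CN.PR
import Pool.Agent.TH268.PD.Ord

/-!
# Local Poisson-Dirichlet law of nearest neighbour stirring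
-/

set_option autoImplicit false

namespace Pool.Agent.Y998.LP

open Finset Equiv Filter Topology Pool.Agent.Y998.ST Pool.Agent.Y998.CN
open Pool.Agent.TH268.PD (Cyc cyOf frac top ret ret_spec unif um pdm pdl pdm_close lip_approx)

theorem t_master (d : ℕ) (hd : 1 ≤ d) : ∃ C : ℝ, 0 < C ∧
      ∀ (L : ℕ) [NeZero L], 3 ≤ L → ∀ t : ℝ, 4 ≤ t → ∀ (x : Fin d → ZMod L) (i : Fin d),
        NN (nnRate d L) t (swap x (Function.update x i (x i + 1))) ≤
          C * Real.sqrt (ll t L / t) :=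
  master (Pool.Agent.Y799.LP.t_RC Pool.Agent.Y641.CN.t_PB Pool.Agent.Y664.CN.t_TR)
    (Pool.Agent.Y799.LP.t_RF Pool.Agent.Y154.CN.t_PR Pool.Agent.Y664.CN.t_TR)
    Pool.Agent.Y950.CN.t_PATH (Pool.Agent.Y220.LP.t_ID Pool.Agent.Y495.LP.t_EN2)
    Pool.Agent.Y415.LP.t_UP Pool.Agent.Y350.LP.Pos.t_POS
    (Pool.Agent.Y415.LP.t_ENT Pool.Agent.Y768.LP.t_PIN Pool.Agent.Y768.LP.t_DPI) d hd

/-- any two points -/
theorem nn_dist (d : ℕ) (hd : 1 ≤ d) : ∃ C : ℝ, 0 < C ∧
      ∀ (L : ℕ) [NeZero L], 3 ≤ L → ∀ t : ℝ, 4 ≤ t → ∀ x y : Fin d → ZMod L,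
        NN (nnRate d L) t (swap x y) ≤ C * (tdist x y * Real.sqrt (ll t L / t)) := by
  obtain ⟨C, hC, h⟩ := t_master d hd
  refine ⟨2 * C, by positivity, fun L _ hL t ht x y => ?_⟩
  have h1 := Pool.Agent.Y350.LP.Pos.t_DIST d L hL (NN (nnRate d L) t)
    (C * Real.sqrt (ll t L / t)) (by positivity) (NN_one _ _) (NN_mul _ _) (h L hL t ht) x y
  refine h1.trans (le_of_eq ?_)
  ring

section gen

variable {V : Type} [Fintype V] [DecidableEq V]

open Classical in
/-- the law of the induced permutation -/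
noncomputable def PI (J : V → V → ℝ) (t : ℝ) {k : ℕ} (b : Fin k → V) (π : Perm (Fin k)) : ℝ :=
  ∑ g, stirLaw J t g * (if ret k b g = π then 1 else 0)

theorem PI_sum (J : V → V → ℝ) (t : ℝ) {k : ℕ} (b : Fin k → V) : ∑ π, PI J t b π = 1 := by
  classical
  unfold PI
  rw [Finset.sum_comm]
  have h : ∀ g, ∑ π : Perm (Fin k), stirLaw J t g * (if ret k b g = π then (1 : ℝ) else 0) =
      stirLaw J t g := by
    intro g
    rw [← Finset.mul_sum, Finset.sum_ite_eq, if_pos (Finset.mem_univ _), mul_one]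
  rw [Finset.sum_congr rfl fun g _ => h g, law_sum]

theorem PI_step (J : V → V → ℝ) (t : ℝ) {k : ℕ} (b : Fin k → V) (hb : Function.Injective b)
    (i j : Fin k) (π : Perm (Fin k)) :
    |PI J t b π - PI J t b (swap i j * π)| ≤ NN J t (swap (b i) (b j)) := by
  classical
  obtain ⟨_, h2, _, _⟩ := ret_spec k b hb
  have e1 : PI J t b (swap i j * π) = ∑ g, stirLaw J t ((swap (b i) (b j))⁻¹ * g) *
      (if ret k b g = π then 1 else 0) := by
    unfold PI
    rw [← Equiv.sum_comp (Equiv.mulLeft (swap (b i) (b j)))]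
    refine Finset.sum_congr rfl fun g _ => ?_
    rw [Equiv.coe_mulLeft, h2, swap_inv]
    congr 1
    by_cases h : ret k b g = π
    · rw [if_pos h, if_pos (by rw [h])]
    · rw [if_neg h, if_neg (fun h' => h (mul_left_cancel h'))]
  rw [e1]
  unfold PI NN
  rw [← Finset.sum_sub_distrib]
  refine (Finset.abs_sum_le_sum_abs _ _).trans (Finset.sum_le_sum fun g _ => ?_)
  rw [← sub_mul, abs_mul, abs_sub_comm]
  refine mul_le_of_le_one_right (abs_nonneg _) ?_
  split_ifs <;> norm_num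

theorem PI_unif (J : V → V → ℝ) (t : ℝ) {k : ℕ} (b : Fin k → V) (hb : Function.Injective b)
    (η : ℝ) (hη : 0 ≤ η) (h : ∀ i j, NN J t (swap (b i) (b j)) ≤ η) (π : Perm (Fin k)) :
    |PI J t b π - 1 / (k.factorial : ℝ)| ≤ k * η := by
  have h1 := unif k (PI J t b) η hη (fun i j _ π => (PI_step J t b hb i j π).trans (h i j)) π
  rwa [PI_sum] at h1

/-- the mean of a function of the induced permutation -/
theorem PI_mean (J : V → V → ℝ) (t : ℝ) {k : ℕ} (b : Fin k → V) (hb : Function.Injective b)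
    (η : ℝ) (hη : 0 ≤ η) (h : ∀ i j, NN J t (swap (b i) (b j)) ≤ η) (G : Perm (Fin k) → ℝ)
    (C : ℝ) (hG : ∀ π, |G π| ≤ C) :
    |∑ g, stirLaw J t g * G (ret k b g) - (∑ π, G π) / (k.factorial : ℝ)| ≤
      k.factorial * (k * η * C) := by
  classical
  have e1 : ∑ g, stirLaw J t g * G (ret k b g) = ∑ π, PI J t b π * G π := by
    unfold PI
    simp only [Finset.sum_mul]
    rw [Finset.sum_comm]
    refine Finset.sum_congr rfl fun g _ => ?_
    simp only [mul_ite, mul_one, mul_zero, ite_mul, zero_mul]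
    rw [Finset.sum_ite_eq, if_pos (Finset.mem_univ _)]
  have e2 : (∑ π, G π) / (k.factorial : ℝ) = ∑ π, 1 / (k.factorial : ℝ) * G π := by
    rw [← Finset.mul_sum, div_eq_mul_inv, one_div, mul_comm]
  rw [e1, e2, ← Finset.sum_sub_distrib]
  refine (Finset.abs_sum_le_sum_abs _ _).trans ?_
  have h1 : ∀ π : Perm (Fin k), |PI J t b π * G π - 1 / (k.factorial : ℝ) * G π| ≤ k * η * C := by
    intro π
    rw [← sub_mul, abs_mul]
    exact mul_le_mul (PI_unif J t b hb η hη h π) (hG π) (abs_nonneg _) (by positivity)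
  refine (Finset.sum_le_sum fun π _ => h1 π).trans (le_of_eq ?_)
  rw [Finset.sum_const, Finset.card_univ, Fintype.card_perm, Fintype.card_fin, nsmul_eq_mul]

/-- few tuples are not injective -/
theorem card_inj (B : Finset V) (k : ℕ) (hk : 0 < k) (hB : 0 < B.card) :
    |((Fintype.piFinset (fun _ : Fin k => B)).filter Function.Injective).card -
      (B.card : ℝ) ^ k| ≤ (k : ℝ) ^ 2 * (B.card : ℝ) ^ (k - 1) := by
  classical
  have h := Pool.Agent.Y259.LP.t_SAMP V B k hk hB 1 (fun b => ret k b 1)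
    (fun b hb => (ret_spec k b hb).2.2.2 1) 0 (fun _ => 1) 1 0 le_rfl (by simp) (by simp)
  rw [Finset.sum_ite, Finset.sum_const_zero, add_zero, Finset.sum_const, nsmul_eq_mul, mul_one,
    mul_one, zero_div, mul_zero, zero_add, one_mul] at h
  convert h using 4

/-- the ordered fractions of a set with nearly exchangeable points -/
theorem set_mean {J : V → V → ℝ} (hJ : ∀ x y, 0 ≤ J x y) {t : ℝ} (ht : 0 ≤ t) (B : Finset V)
    (k : ℕ) (hk : 0 < k) (hB : 0 < B.card) (η : ℝ) (hη : 0 ≤ η)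
    (h : ∀ x ∈ B, ∀ y ∈ B, NN J t (swap x y) ≤ η) (m : ℕ) (f : (Fin m → ℝ) → ℝ) (C Λ : ℝ)
    (hΛ : 0 ≤ Λ) (hC : ∀ u, |f u| ≤ C)
    (hf : ∀ (u v : Fin m → ℝ) (e : ℝ), 0 ≤ e → (∀ i, |u i - v i| ≤ e) → |f u - f v| ≤ Λ * e) :
    |∑ g, stirLaw J t g * f (fun i => top (bfrac B g) i) - um k f| ≤
      Λ / Real.sqrt k + 2 * (C * (k ^ 2 / B.card)) + k.factorial * (k * η * C) := by
  classical
  have hC0 : 0 ≤ C := (abs_nonneg _).trans (hC (fun _ => 0))
  obtain ⟨n, hn⟩ : ∃ n : ℝ, n = (B.card : ℝ) := ⟨_, rfl⟩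
  have hn0 : 0 < n := by rw [hn]; exact_mod_cast hB
  obtain ⟨F, hF⟩ : ∃ F : Perm (Fin k) → ℝ, F = fun π => f (fun i => top (frac π) i) := ⟨_, rfl⟩
  have hFC : ∀ π, |F π| ≤ C := fun π => by rw [hF]; exact hC _
  obtain ⟨S, hS⟩ : ∃ S, S = (Fintype.piFinset (fun _ : Fin k => B)).filter Function.Injective :=
    ⟨_, rfl⟩
  have hScard : |(S.card : ℝ) - n ^ k| ≤ (k : ℝ) ^ 2 * n ^ (k - 1) := by
    rw [hS, hn]
    exact card_inj B k hk hB
  have hSle : (S.card : ℝ) ≤ n ^ k := by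
    have h1 : S.card ≤ (Fintype.piFinset (fun _ : Fin k => B)).card := by
      rw [hS]; exact Finset.card_filter_le _ _
    rw [Fintype.card_piFinset_const] at h1
    rw [hn]
    exact_mod_cast h1
  obtain ⟨T, hT⟩ : ∃ T, T = ∑ g, stirLaw J t g * f (fun i => top (bfrac B g) i) := ⟨_, rfl⟩
  have h1 : |∑ b ∈ S, ∑ g, stirLaw J t g * F (ret k b g) - n ^ k * T| ≤
      n ^ k * (Λ / Real.sqrt k) + C * ((k : ℝ) ^ 2 * n ^ (k - 1)) := by
    have e1 : ∑ b ∈ S, ∑ g, stirLaw J t g * F (ret k b g) - n ^ k * T =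
        ∑ g, stirLaw J t g * ((∑ b ∈ Fintype.piFinset (fun _ : Fin k => B),
          if Function.Injective b then F (ret k b g) else 0) -
            n ^ k * f (fun i => top (bfrac B g) i)) := by
      rw [Finset.sum_comm, hT, Finset.mul_sum, ← Finset.sum_sub_distrib]
      refine Finset.sum_congr rfl fun g _ => ?_
      rw [hS, Finset.sum_filter, mul_sub, Finset.mul_sum]
      congr 1
      · refine Finset.sum_congr rfl fun b _ => ?_
        rw [mul_ite, mul_zero]
      · ring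
    rw [e1]
    refine (Finset.abs_sum_le_sum_abs _ _).trans ?_
    have h2 : ∀ g : Perm V, |(∑ b ∈ Fintype.piFinset (fun _ : Fin k => B),
          if Function.Injective b then F (ret k b g) else 0) -
            n ^ k * f (fun i => top (bfrac B g) i)| ≤
          n ^ k * (Λ / Real.sqrt k) + C * ((k : ℝ) ^ 2 * n ^ (k - 1)) := by
      intro g
      have h3 := Pool.Agent.Y259.LP.t_SAMP V B k hk hB g (fun b => ret k b g)
        (fun b hb => (ret_spec k b hb).2.2.2 g) m f C Λ hΛ hC hf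
      rw [hn, hF]
      convert h3 using 4
    have h4 : ∀ g : Perm V, |stirLaw J t g * ((∑ b ∈ Fintype.piFinset (fun _ : Fin k => B),
          if Function.Injective b then F (ret k b g) else 0) -
            n ^ k * f (fun i => top (bfrac B g) i))| ≤ stirLaw J t g *
          (n ^ k * (Λ / Real.sqrt k) + C * ((k : ℝ) ^ 2 * n ^ (k - 1))) := by
      intro g
      rw [abs_mul, abs_of_nonneg (law_nonneg hJ ht g)]
      exact mul_le_mul_of_nonneg_left (h2 g) (law_nonneg hJ ht g)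
    refine (Finset.sum_le_sum fun g _ => h4 g).trans (le_of_eq ?_)
    rw [← Finset.sum_mul, law_sum, one_mul]
  have hum : um k f = (∑ π, F π) / (k.factorial : ℝ) := by rw [hF]; rfl
  have h2 : |∑ b ∈ S, ∑ g, stirLaw J t g * F (ret k b g) - S.card * um k f| ≤
      S.card * (k.factorial * (k * η * C)) := by
    rw [hum, ← nsmul_eq_mul, ← nsmul_eq_mul, ← Finset.sum_const, ← Finset.sum_const,
      ← Finset.sum_sub_distrib]
    refine (Finset.abs_sum_le_sum_abs _ _).trans (Finset.sum_le_sum fun b hb => ?_)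
    rw [hS, Finset.mem_filter, Fintype.mem_piFinset] at hb
    exact PI_mean J t b hb.2 η hη (fun i j => h _ (hb.1 i) _ (hb.1 j)) F C hFC
  have humC : |um k f| ≤ C := by
    have hfac : (0 : ℝ) < (k.factorial : ℝ) := by exact_mod_cast k.factorial_pos
    rw [hum, abs_div, abs_of_pos hfac, div_le_iff₀ hfac]
    refine (Finset.abs_sum_le_sum_abs _ _).trans ?_
    refine (Finset.sum_le_sum fun σ _ => hFC σ).trans (le_of_eq ?_)
    rw [Finset.sum_const, Finset.card_univ, Fintype.card_perm, Fintype.card_fin, nsmul_eq_mul,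
      mul_comm]
  have h3 : |(S.card : ℝ) * um k f - n ^ k * um k f| ≤ C * ((k : ℝ) ^ 2 * n ^ (k - 1)) := by
    rw [← sub_mul, abs_mul, mul_comm]
    exact mul_le_mul humC hScard (abs_nonneg _) hC0
  have hX0 : 0 ≤ (k.factorial : ℝ) * (k * η * C) := by positivity
  have h4 : n ^ k * |T - um k f| ≤ n ^ k * (Λ / Real.sqrt k) + 2 * (C * ((k : ℝ) ^ 2 *
      n ^ (k - 1))) + n ^ k * (k.factorial * (k * η * C)) := by
    have h5 : n ^ k * |T - um k f| = |n ^ k * T - n ^ k * um k f| := by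
      rw [← mul_sub, abs_mul, abs_of_pos (pow_pos hn0 k)]
    rw [h5]
    have h6 := mul_le_mul_of_nonneg_right hSle hX0
    rw [abs_le] at h1 h2 h3 ⊢
    constructor <;> linarith [h1.1, h1.2, h2.1, h2.2, h3.1, h3.2]
  have hnk : n ^ k = n ^ (k - 1) * n := by
    rw [← pow_succ]
    congr 1
    omega
  have hnk0 : 0 < n ^ k := pow_pos hn0 k
  have h5 : n ^ k * (Λ / Real.sqrt k) + 2 * (C * ((k : ℝ) ^ 2 *
      n ^ (k - 1))) + n ^ k * (k.factorial * (k * η * C)) = n ^ k * (Λ / Real.sqrt k +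
        2 * (C * (k ^ 2 / n)) + k.factorial * (k * η * C)) := by
    rw [hnk]
    field_simp
  rw [h5] at h4
  have h6 := le_of_mul_le_mul_left h4 hnk0
  rw [← hT, ← hn]
  exact h6

end gen

end Pool.Agent.Y998.LP
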