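import Pool.Agent.Y998.LP.Defs

/-!
# The stirring law as a convolution semigroup; entropy
-/

set_option autoImplicit false

namespace Pool.Agent.Y998.LP

open Finset Equiv Filter Topology Pool.Agent.Y998.ST Pool.Agent.Y998.CN

section law

variable {V : Type} [Fintype V] [DecidableEq V]

theorem pow_right (J : V → V → ℝ) (n : ℕ) :
    ∀ g h k : Perm V, (TT J ^ n) (g * k) (h * k) = (TT J ^ n) g h := by
  induction n with
  | zero =>
    intro g h k
    rw [pow_zero, Matrix.one_apply, Matrix.one_apply]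
    simp only [mul_left_inj]
  | succ n ih =>
    intro g h k
    rw [pow_succ', TT_mul, TT_mul]
    refine Finset.sum_congr rfl fun x _ => Finset.sum_congr rfl fun y _ => ?_
    rw [← mul_assoc, ih]

theorem TT_symm (J : V → V → ℝ) (g h : Perm V) : TT J g h = TT J h g := by
  unfold TT
  refine Finset.sum_congr rfl fun x _ => Finset.sum_congr rfl fun y _ => ?_
  congr 1
  have h1 : h = swap x y * g ↔ g = swap x y * h := by
    constructor
    · rintro rfl; rw [← mul_assoc, swap_mul_self, one_mul]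
    · rintro rfl; rw [← mul_assoc, swap_mul_self, one_mul]
  simp only [h1]

theorem pow_symm (J : V → V → ℝ) (n : ℕ) (g h : Perm V) : (TT J ^ n) g h = (TT J ^ n) h g := by
  have h1 : (TT J).transpose = TT J := by
    ext a b
    rw [Matrix.transpose_apply, TT_symm]
  have h2 : (TT J ^ n).transpose = TT J ^ n := by rw [Matrix.transpose_pow, h1]
  calc (TT J ^ n) g h = (TT J ^ n).transpose g h := by rw [h2]
    _ = _ := rfl

theorem E_right (J : V → V → ℝ) (t : ℝ) (g h k : Perm V) :
    E (TT J) t (g * k) (h * k) = E (TT J) t g h := by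
  have h1 := E_hasSum (TT J) t (g * k) (h * k)
  simp only [pow_right] at h1
  exact h1.unique (E_hasSum (TT J) t g h)

theorem law_inv (J : V → V → ℝ) (t : ℝ) (g : Perm V) : stirLaw J t g⁻¹ = stirLaw J t g := by
  unfold stirLaw
  refine tsum_congr fun n => ?_
  rw [← TT_words, ← TT_words]
  congr 1
  have h1 := pow_right J n 1 g g⁻¹
  rw [one_mul, mul_inv_cancel] at h1
  rw [h1, pow_symm]

theorem law_add (J : V → V → ℝ) (s t : ℝ) (g : Perm V) :
    stirLaw J (s + t) g = ∑ k, stirLaw J s k * stirLaw J t (k⁻¹ * g) := by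
  have h1 : ∀ k : Perm V, E (TT J) s g (k⁻¹ * g) = E (TT J) s k 1 := by
    intro k
    have h2 := E_right J s k 1 (k⁻¹ * g)
    rw [one_mul, ← mul_assoc, mul_inv_cancel, one_mul] at h2
    exact h2
  rw [law_eq, E_add, Matrix.mul_apply]
  rw [← Equiv.sum_comp ((Equiv.inv (Perm V)).trans (Equiv.mulRight g)), Finset.mul_sum]
  refine Finset.sum_congr rfl fun k _ => ?_
  have h3 : ((Equiv.inv (Perm V)).trans (Equiv.mulRight g)) k = k⁻¹ * g := rfl
  rw [h3, h1, law_eq, law_eq, add_mul, neg_add, Real.exp_add]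
  ring

theorem law_max (J : V → V → ℝ) (t : ℝ) (g : Perm V) : stirLaw J t g ≤ stirLaw J t 1 := by
  have h0 : t = t / 2 + t / 2 := by ring
  rw [h0, law_add, law_add]
  have h1 : ∀ k : Perm V, stirLaw J (t / 2) (k⁻¹ * 1) = stirLaw J (t / 2) k := by
    intro k; rw [mul_one, law_inv]
  simp only [h1]
  have h2 : ∑ k, stirLaw J (t / 2) (k⁻¹ * g) ^ 2 = ∑ k, stirLaw J (t / 2) k ^ 2 := by
    rw [← Equiv.sum_comp ((Equiv.inv (Perm V)).trans (Equiv.mulRight g))
      (fun k => stirLaw J (t / 2) k ^ 2)]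
    rfl
  calc ∑ k, stirLaw J (t / 2) k * stirLaw J (t / 2) (k⁻¹ * g)
      ≤ ∑ k, (stirLaw J (t / 2) k ^ 2 + stirLaw J (t / 2) (k⁻¹ * g) ^ 2) / 2 := by
        refine Finset.sum_le_sum fun k _ => ?_
        nlinarith [sq_nonneg (stirLaw J (t / 2) k - stirLaw J (t / 2) (k⁻¹ * g))]
    _ = (∑ k, stirLaw J (t / 2) k ^ 2 + ∑ k, stirLaw J (t / 2) (k⁻¹ * g) ^ 2) / 2 := by
        rw [← Finset.sum_add_distrib, Finset.sum_div]
    _ = ∑ k, stirLaw J (t / 2) k * stirLaw J (t / 2) k := by
        rw [h2]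
        have : ∀ k, stirLaw J (t / 2) k * stirLaw J (t / 2) k = stirLaw J (t / 2) k ^ 2 :=
          fun k => by ring
        rw [Finset.sum_congr rfl fun k _ => this k]
        ring

theorem law_cont (J : V → V → ℝ) (g : Perm V) : Continuous fun t => stirLaw J t g := by
  rw [continuous_iff_continuousAt]
  exact fun t => (law_deriv J t g).continuousAt

/-- the jump rates of the semigroup -/
noncomputable def jr (J : V → V → ℝ) (h : Perm V) : ℝ :=
  ∑ x, ∑ y, J x y / 2 * (if h = swap x y then 1 else 0)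

theorem law_slope (J : V → V → ℝ) (h : Perm V) (hh : h ≠ 1) :
    Tendsto (fun s => stirLaw J s h / s) (𝓝[>] 0) (𝓝 (jr J h)) := by
  have h1 := law_deriv J 0 h
  have h2 : ∑ x, ∑ y, J x y / 2 * (stirLaw J 0 (swap x y * h) - stirLaw J 0 h) = jr J h := by
    unfold jr
    refine Finset.sum_congr rfl fun x _ => Finset.sum_congr rfl fun y _ => ?_
    rw [law_zero, law_zero, if_neg hh, sub_zero]
    congr 1
    have h3 : swap x y * h = 1 ↔ h = swap x y := by
      rw [mul_eq_one_iff_eq_inv]
      constructor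
      · intro h4; rw [← inv_inv h, ← h4, swap_inv]
      · rintro rfl; rw [swap_inv]
    simp only [h3]
  rw [h2] at h1
  have h4 := h1.tendsto_slope_zero_right
  refine h4.congr fun s => ?_
  rw [zero_add, law_zero, if_neg hh, sub_zero, smul_eq_mul]
  ring

theorem law_const (κ t : ℝ) (g : Perm V) :
    stirLaw (fun _ _ : V => κ) t g = stirLaw (fun _ _ : V => (1 : ℝ)) (κ * t) g := by
  have h1 : TT (fun _ _ : V => κ) = κ • TT (fun _ _ : V => (1 : ℝ)) := by
    ext a b
    rw [Matrix.smul_apply, smul_eq_mul]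
    unfold TT
    rw [Finset.mul_sum]
    refine Finset.sum_congr rfl fun x _ => ?_
    rw [Finset.mul_sum]
    refine Finset.sum_congr rfl fun y _ => ?_
    ring
  have h2 : totalRate (fun _ _ : V => κ) = κ * totalRate (fun _ _ : V => (1 : ℝ)) := by
    unfold totalRate
    rw [Finset.mul_sum]
    refine Finset.sum_congr rfl fun x _ => ?_
    rw [Finset.mul_sum]
    refine Finset.sum_congr rfl fun y _ => ?_
    ring
  rw [law_eq, law_eq, h1, h2]
  have h3 : E (κ • TT (fun _ _ : V => (1 : ℝ))) t = E (TT (fun _ _ : V => (1 : ℝ))) (κ * t) := by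
    unfold E
    rw [smul_smul, mul_comm]
  rw [h3]
  congr 2
  ring

end law

section entropy

variable {ι : Type} [Fintype ι]

/-- min-entropy bound -/
theorem ent_ge (p : ι → ℝ) (hp : ∀ i, 0 ≤ p i) (hp1 : ∑ i, p i = 1) {M : ℝ} (hM : 0 < M)
    (h : ∀ i, p i ≤ M) : -Real.log M ≤ ent p := by
  unfold ent
  refine neg_le_neg ?_
  calc ∑ i, p i * Real.log (p i) ≤ ∑ i, p i * Real.log M := by
        refine Finset.sum_le_sum fun i _ => ?_
        rcases eq_or_lt_of_le (hp i) with h0 | h0
        · rw [← h0, zero_mul, zero_mul]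
        · exact mul_le_mul_of_nonneg_left (Real.log_le_log h0 (h i)) (hp i)
    _ = Real.log M := by rw [← Finset.sum_mul, hp1, one_mul]

/-- the entropy is at most the logarithm of the number of points -/
theorem ent_le_card [Nonempty ι] (p : ι → ℝ) (hp : ∀ i, 0 ≤ p i) (hp1 : ∑ i, p i = 1) :
    ent p ≤ Real.log (Fintype.card ι) := by
  unfold ent
  have hn : (0 : ℝ) < Fintype.card ι := by exact_mod_cast Fintype.card_pos
  have h1 : ∀ i, -(p i * Real.log (p i)) ≤ p i * Real.log (Fintype.card ι) +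
      (1 / Fintype.card ι - p i) := by
    intro i
    rcases eq_or_lt_of_le (hp i) with h0 | h0
    · rw [← h0]; simp
    · have h2 := Real.one_sub_inv_le_log_of_pos (x := p i * Fintype.card ι) (by positivity)
      rw [Real.log_mul h0.ne' hn.ne'] at h2
      have h3 := mul_le_mul_of_nonneg_left h2 h0.le
      have h4 : p i * (1 - (p i * (Fintype.card ι : ℝ))⁻¹) = p i - 1 / Fintype.card ι := by
        field_simp
      rw [h4] at h3
      nlinarith
  rw [← Finset.sum_neg_distrib]
  refine (Finset.sum_le_sum fun i _ => h1 i).trans (le_of_eq ?_)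
  rw [Finset.sum_add_distrib, Finset.sum_sub_distrib, ← Finset.sum_mul, hp1, one_mul,
    Finset.sum_const, Finset.card_univ, nsmul_eq_mul]
  field_simp
  ring

/-- the entropy does not decrease under convolution -/
theorem ent_mono {G : Type} [Group G] [Fintype G] (a b : G → ℝ) (ha : ∀ g, 0 ≤ a g)
    (ha1 : ∑ g, a g = 1) (hb : ∀ g, 0 ≤ b g) :
    ent b ≤ ent fun g => ∑ k, a k * b (k⁻¹ * g) := by
  have h0 : ∀ p : G → ℝ, ent p = ∑ g, Real.negMulLog (p g) := by
    intro p
    unfold ent Real.negMulLog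
    rw [← Finset.sum_neg_distrib]
    exact Finset.sum_congr rfl fun g _ => by ring
  rw [h0, h0]
  have h1 : ∀ g, ∑ k, a k * Real.negMulLog (b (k⁻¹ * g)) ≤
      Real.negMulLog (∑ k, a k * b (k⁻¹ * g)) := by
    intro g
    have h2 := Real.concaveOn_negMulLog.le_map_sum (t := Finset.univ) (w := a)
      (p := fun k => b (k⁻¹ * g)) (fun k _ => ha k) ha1 (fun k _ => Set.mem_Ici.2 (hb _))
    simpa only [smul_eq_mul] using h2
  refine le_trans (le_of_eq ?_) (Finset.sum_le_sum fun g _ => h1 g)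
  rw [Finset.sum_comm]
  have h3 : ∀ k, ∑ g, a k * Real.negMulLog (b (k⁻¹ * g)) =
      a k * ∑ g, Real.negMulLog (b g) := by
    intro k
    rw [← Finset.mul_sum, ← Equiv.sum_comp (Equiv.mulLeft k⁻¹) (fun g => Real.negMulLog (b g))]
    rfl
  rw [Finset.sum_congr rfl fun k _ => h3 k, ← Finset.sum_mul, ha1, one_mul]

end entropy

end Pool.Agent.Y998.LP
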