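import Pool.Agent.Y998.LP.Law2

/-!
# Lower bound of the entropy of the stirring permutation
-/

set_option autoImplicit false

namespace Pool.Agent.Y998.LP

open Finset Equiv Filter Topology Pool.Agent.Y998.ST Pool.Agent.Y998.CN

section blocks

variable {V : Type} [Fintype V] [DecidableEq V] {d L : ℕ}

/-- comparison of the Dirichlet forms: the box and the union of the complete graphs on blocks -/
theorem blocks_form (hPATH : S_PATH) (φ : V ≃ (Fin d → Fin L)) {J : V → V → ℝ}
    (hJ0 : ∀ x y, 0 ≤ J x y)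
    (hJ : ∀ v w k, co φ w = Function.update (co φ v) k (co φ v k + 1) → 1 ≤ J v w)
    (hd : 1 ≤ d) {l : ℕ} (hl : 1 ≤ l) (J' : V → V → ℝ)
    (hJ' : J' = fun x y => if blk φ l x = blk φ l y then 1 / (16 * d * (l : ℝ) ^ 2) /
      ((univ.filter (fun v => blk φ l v = blk φ l x)).card : ℝ) else 0) (q : ℕ)
    (f : (V → Fin q) → ℝ) :
    ∑ x, ∑ y, J' x y * DD f x y ≤ ∑ x, ∑ y, J x y * DD f x y := by
  obtain ⟨κ, hκ⟩ : ∃ κ : ℝ, κ = 1 / (16 * d * (l : ℝ) ^ 2) := ⟨_, rfl⟩
  have hd0 : (0 : ℝ) < d := by exact_mod_cast hd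
  have hl0 : (0 : ℝ) < l := by exact_mod_cast hl
  have hκ0 : 0 < κ := by rw [hκ]; positivity
  obtain ⟨n, hn⟩ : ∃ n : (Fin d → Fin (L / l + 1)) → ℝ, n = fun i =>
    ((univ.filter (fun v => blk φ l v = i)).card : ℝ) := ⟨_, rfl⟩
  have hn0 : ∀ i, 0 ≤ n i := fun i => by rw [hn]; positivity
  have e1 : ∑ x, ∑ y, J' x y * DD f x y =
      ∑ i, κ / n i * ∑ v ∈ univ.filter (fun v => blk φ l v = i),
        ∑ w ∈ univ.filter (fun v => blk φ l v = i), DD f v w := by
    rw [← Finset.sum_fiberwise univ (blk φ l) (fun x => ∑ y, J' x y * DD f x y)]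
    refine Finset.sum_congr rfl fun i _ => ?_
    rw [Finset.mul_sum]
    refine Finset.sum_congr rfl fun v hv => ?_
    have hv' : blk φ l v = i := (Finset.mem_filter.1 hv).2
    rw [Finset.sum_filter, Finset.mul_sum]
    refine Finset.sum_congr rfl fun w _ => ?_
    rw [hJ', hn, hκ]
    simp only
    by_cases h : blk φ l w = i
    · rw [if_pos (by rw [hv', h]), if_pos h, hv']
    · rw [if_neg (by rw [hv']; exact Ne.symm h), if_neg h, zero_mul, mul_zero]
  rw [e1, ← Finset.sum_fiberwise univ (blk φ l) (fun x => ∑ y, J x y * DD f x y)]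
  refine Finset.sum_le_sum fun i _ => ?_
  have h1 := block_cmp hPATH φ hJ0 hJ hl f i
  have h2 : 0 ≤ ∑ v ∈ univ.filter (fun v => blk φ l v = i), ∑ w, J v w * DD f v w :=
    Finset.sum_nonneg fun v _ => Finset.sum_nonneg fun w _ =>
      mul_nonneg (hJ0 _ _) (DD_nonneg _ _ _)
  have h3 : 0 ≤ κ / n i := div_nonneg hκ0.le (hn0 i)
  refine (mul_le_mul_of_nonneg_left h1 h3).trans ?_
  have hni : ((univ.filter (fun v => blk φ l v = i)).card : ℝ) = n i := by rw [hn]
  rw [hni, ← mul_assoc]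
  have h4 : κ / n i * (16 * (d : ℝ) * (l : ℝ) ^ 2 * n i) ≤ 1 := by
    rcases eq_or_lt_of_le (hn0 i) with h | h
    · rw [← h]; simp
    · rw [hκ]
      have : 1 / (16 * (d : ℝ) * (l : ℝ) ^ 2) / n i * (16 * (d : ℝ) * (l : ℝ) ^ 2 * n i) = 1 := by
        field_simp
      exact this.le
  calc κ / n i * (16 * (d : ℝ) * (l : ℝ) ^ 2 * n i) *
        ∑ v ∈ univ.filter (fun v => blk φ l v = i), ∑ w, J v w * DD f v w
      ≤ 1 * ∑ v ∈ univ.filter (fun v => blk φ l v = i), ∑ w, J v w * DD f v w :=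
        mul_le_mul_of_nonneg_right h4 h2
    _ = _ := one_mul _

/-- upper bound of the return probability -/
theorem ret_blocks (hRC : S_RC) (hRF : S_RF) (hPATH : S_PATH) (hID : S_ID)
    (φ : V ≃ (Fin d → Fin L)) {J : V → V → ℝ} (hJ0 : ∀ x y, 0 ≤ J x y)
    (hJ : ∀ v w k, co φ w = Function.update (co φ v) k (co φ v k + 1) → 1 ≤ J v w)
    (hd : 1 ≤ d) {l : ℕ} (hl : 1 ≤ l) {t : ℝ} (ht : 0 ≤ t)
    (hcond : 2 * (((l : ℝ) ^ d) ^ 2 + 1) ≤ Real.exp (t / (16 * d * (l : ℝ) ^ 2) / 2)) :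
    stirLaw J t 1 ≤ ∏ i : Fin d → Fin (L / l + 1),
      2 / ((Fintype.card {v : V // blk φ l v = i}).factorial : ℝ) := by
  obtain ⟨κ, hκ⟩ : ∃ κ : ℝ, κ = 1 / (16 * d * (l : ℝ) ^ 2) := ⟨_, rfl⟩
  have hd0 : (0 : ℝ) < d := by exact_mod_cast hd
  have hl0 : (0 : ℝ) < l := by exact_mod_cast hl
  have hκ0 : 0 < κ := by rw [hκ]; positivity
  obtain ⟨J', hJ'⟩ : ∃ J' : V → V → ℝ, J' = fun x y =>
    if blk φ l x = blk φ l y then 1 / (16 * d * (l : ℝ) ^ 2) /
      ((univ.filter (fun v => blk φ l v = blk φ l x)).card : ℝ) else 0 := ⟨_, rfl⟩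
  have hcmp : stirLaw J t 1 ≤ stirLaw J' t 1 :=
    hRC V J J' t ht fun q f => blocks_form hPATH φ hJ0 hJ hd hl J' hJ' q f
  refine hcmp.trans ?_
  rw [hRF V (Fin d → Fin (L / l + 1)) (blk φ l) J' t (fun x y h => by rw [hJ']; simp [h])]
  have hnc : ∀ i, ((univ.filter (fun v => blk φ l v = i)).card : ℝ) =
      (Fintype.card {v : V // blk φ l v = i} : ℝ) := by
    intro i
    rw [Fintype.card_subtype]
  have hZi : ∀ i : Fin d → Fin (L / l + 1),
      stirLaw (fun x y : {v : V // blk φ l v = i} => J' x y) t 1 =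
      stirLaw (fun _ _ : {v : V // blk φ l v = i} => (1 : ℝ))
        (κ * t / Fintype.card {v : V // blk φ l v = i}) 1 := by
    intro i
    have h1 : (fun x y : {v : V // blk φ l v = i} => J' x y) =
        fun _ _ : {v : V // blk φ l v = i} => κ / Fintype.card {v : V // blk φ l v = i} := by
      funext x y
      rw [hJ']
      simp only
      rw [if_pos (by rw [x.2, y.2]), x.2, hnc, hκ]
    rw [h1, law_const]
    congr 1
    ring
  refine Finset.prod_le_prod (fun i _ => ?_) (fun i _ => ?_)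
  · rw [hZi]
    exact law_nonneg (fun _ _ => zero_le_one) (by positivity) _
  · rw [hZi]
    have hf : (0 : ℝ) < ((Fintype.card {v : V // blk φ l v = i}).factorial : ℝ) := by
      exact_mod_cast Nat.factorial_pos _
    rw [le_div_iff₀ hf, mul_comm]
    refine hID {v : V // blk φ l v = i} (κ * t) (by positivity) ?_
    have h2 : t / (16 * d * (l : ℝ) ^ 2) = κ * t := by rw [hκ]; ring
    rw [h2] at hcond
    refine le_trans ?_ hcond
    have h3 : (Fintype.card {v : V // blk φ l v = i} : ℝ) ≤ (l : ℝ) ^ d := by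
      have h1 := box_card (d := d) (L := L) (l := l) i
      rw [box_eq φ hl i, Finset.card_image_of_injective _ (co_inj φ)] at h1
      rw [← hnc]
      exact_mod_cast h1
    have h4 : (Fintype.card {v : V // blk φ l v = i} : ℝ) ^ 2 ≤ ((l : ℝ) ^ d) ^ 2 :=
      pow_le_pow_left₀ (by positivity) h3 2
    linarith

theorem log_fact (n : ℕ) : (n : ℝ) * Real.log n - n ≤ Real.log (n.factorial : ℝ) := by
  rcases Nat.eq_zero_or_pos n with h | h
  · subst h; simp
  · have hn : (0 : ℝ) < n := by exact_mod_cast h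
    have hf : (0 : ℝ) < (n.factorial : ℝ) := by exact_mod_cast Nat.factorial_pos n
    have h1 := Real.pow_div_factorial_le_exp (n : ℝ) hn.le n
    rw [div_le_iff₀ hf] at h1
    have h2 := Real.log_le_log (by positivity) h1
    rw [Real.log_pow, Real.log_mul (Real.exp_pos _).ne' hf.ne', Real.log_exp] at h2
    linarith

/-- entropy of blocks -/
theorem sum_log_fact {I : Type} [Fintype I] [Nonempty I] (n : I → ℕ) {N : ℝ} (hN : 0 < N)
    (hn : ∑ i, (n i : ℝ) = N) :
    N * Real.log (N / Fintype.card I) - N ≤ ∑ i, Real.log ((n i).factorial : ℝ) := by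
  have hm : (0 : ℝ) < Fintype.card I := by exact_mod_cast Fintype.card_pos
  have h1 : ∀ i, (n i : ℝ) * Real.log (N / Fintype.card I) - n i + (n i - N / Fintype.card I) ≤
      Real.log ((n i).factorial : ℝ) := by
    intro i
    refine le_trans ?_ (log_fact (n i))
    rcases Nat.eq_zero_or_pos (n i) with h | h
    · rw [h]
      have : 0 < N / Fintype.card I := by positivity
      simp only [Nat.cast_zero, zero_mul]
      linarith
    · have hi : (0 : ℝ) < n i := by exact_mod_cast h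
      have h2 := Real.one_sub_inv_le_log_of_pos (x := (n i : ℝ) / (N / Fintype.card I))
        (by positivity)
      rw [Real.log_div hi.ne' (by positivity)] at h2
      have h3 := mul_le_mul_of_nonneg_left h2 hi.le
      have h4 : (n i : ℝ) * (1 - ((n i : ℝ) / (N / Fintype.card I))⁻¹) =
          n i - N / Fintype.card I := by
        field_simp
      rw [h4] at h3
      nlinarith
  refine le_trans (le_of_eq ?_) (Finset.sum_le_sum fun i _ => h1 i)
  rw [Finset.sum_add_distrib, Finset.sum_sub_distrib, Finset.sum_sub_distrib, ← Finset.sum_mul, hn,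
    Finset.sum_const, Finset.card_univ, nsmul_eq_mul]
  field_simp
  ring

end blocks

/-- Lower bound of the entropy. -/
theorem ent_low (hRC : S_RC) (hRF : S_RF) (hPATH : S_PATH) (hID : S_ID) (d : ℕ) (hd : 1 ≤ d) :
    ∃ C : ℝ, 0 ≤ C ∧ ∀ (L : ℕ) (V : Type) [Fintype V] [DecidableEq V]
    (φ : V ≃ (Fin d → Fin L)) (J : V → V → ℝ), (∀ x y, 0 ≤ J x y) →
    (∀ v w k, co φ w = Function.update (co φ v) k (co φ v k + 1) → 1 ≤ J v w) →
    ∀ t : ℝ, 2 ≤ t → t ≤ (L : ℝ) ^ 2 →
      (L : ℝ) ^ d * ((d : ℝ) / 2 * (Real.log t - Real.log (Real.log t)) - C) ≤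
        ent (stirLaw J t) := by
  have hd0 : (1 : ℝ) ≤ d := by exact_mod_cast hd
  have hl4 : 1 ≤ Real.log 4 := by
    have h1 : Real.log (Real.exp 1) ≤ Real.log 4 := by
      refine Real.log_le_log (Real.exp_pos 1) ?_
      have := Real.exp_one_lt_d9
      linarith
    rwa [Real.log_exp] at h1
  obtain ⟨A, hA⟩ : ∃ A : ℝ, A = 32 * d * (2 * Real.log 4 + d) := ⟨_, rfl⟩
  have hA2 : 2 ≤ A := by
    rw [hA]
    nlinarith
  have hA0 : 0 < A := by linarith
  have hlA : 0 ≤ Real.log A := Real.log_nonneg (by linarith)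
  refine ⟨(d : ℝ) / 2 * Real.log A + d * Real.log 4 + 1 + 4 ^ d, by positivity, ?_⟩
  intro L V _ _ φ J hJ0 hJ t ht htL
  have ht0 : 0 < t := by linarith
  have hlog := log_ge ht
  have hlog0 : 0 < Real.log t := by linarith
  obtain ⟨y, hy⟩ : ∃ y : ℝ, y = Real.log t / t := ⟨_, rfl⟩
  have hy0 : 0 < y := by rw [hy]; positivity
  have hly : Real.log y = Real.log (Real.log t) - Real.log t := by
    rw [hy, Real.log_div hlog0.ne' ht0.ne']
  have hyt : y * t = Real.log t := by rw [hy]; field_simp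
  have hLn : (0 : ℝ) ≤ L := by positivity
  have hL0 : (0 : ℝ) < L := by
    rcases eq_or_lt_of_le hLn with h | h
    · rw [← h] at htL; norm_num at htL; linarith
    · exact h
  have hLd : (0 : ℝ) < (L : ℝ) ^ d := by positivity
  obtain ⟨u, hu⟩ : ∃ u : ℝ, u = Real.sqrt (A * y) := ⟨_, rfl⟩
  have hu0 : 0 < u := by rw [hu]; positivity
  have hu2 : u ^ 2 = A * y := by rw [hu]; exact Real.sq_sqrt (by positivity)
  have hlu : 2 * Real.log u = Real.log A + Real.log y := by
    rw [← Real.log_mul hA0.ne' hy0.ne', ← hu2, Real.log_pow]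
    push_cast
    ring
  have hlaw0 := law_nonneg hJ0 (t := t) ht0.le
  have hlaw1 := law_sum J t
  have h4d : (1 : ℝ) ≤ 4 ^ d := one_le_pow₀ (by norm_num)
  rcases le_or_gt u 1 with h | h
  · -- large times
    obtain ⟨l, hl⟩ : ∃ l : ℕ, l = ⌊1 / u⌋₊ := ⟨_, rfl⟩
    have h1u : 1 ≤ 1 / u := by rw [le_div_iff₀ hu0]; linarith
    have hl1 : 1 ≤ l := by rw [hl]; exact Nat.le_floor (by exact_mod_cast h1u)
    have hl0 : (1 : ℝ) ≤ l := by exact_mod_cast hl1
    have hlu1 : (l : ℝ) ≤ 1 / u := by rw [hl]; exact Nat.floor_le (by positivity)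
    have hlu' : 1 / u < (l : ℝ) + 1 := by rw [hl]; exact Nat.lt_floor_add_one _
    have hlinv : 1 / (l : ℝ) ≤ 2 * u := by
      rw [div_le_iff₀ (by linarith)]
      rw [div_lt_iff₀ hu0] at hlu'
      nlinarith
    have hl2 : (l : ℝ) ^ 2 * (A * y) ≤ 1 := by
      rw [← hu2, ← mul_pow]
      have h1 : (l : ℝ) * u ≤ 1 := by rwa [le_div_iff₀ hu0] at hlu1
      have h2 : 0 ≤ (l : ℝ) * u := by positivity
      exact pow_le_one₀ h2 h1
    have hl2t : (l : ℝ) ^ 2 * (A * Real.log t) ≤ t := by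
      rw [← hyt]
      nlinarith
    have hlt : (l : ℝ) ^ 2 ≤ t := by
      have h1 : 1 ≤ A * Real.log t := by nlinarith
      nlinarith [sq_nonneg (l : ℝ)]
    have hlL : (l : ℝ) ≤ L := by
      have : (l : ℝ) ^ 2 ≤ (L : ℝ) ^ 2 := hlt.trans htL
      exact le_of_sq_le_sq this hLn
    have hcond : 2 * (((l : ℝ) ^ d) ^ 2 + 1) ≤ Real.exp (t / (16 * d * (l : ℝ) ^ 2) / 2) := by
      have h0 : ((l : ℝ) ^ d) ^ 2 = ((l : ℝ) ^ 2) ^ d := by rw [← pow_mul, ← pow_mul, mul_comm]
      have h1 : 2 * (((l : ℝ) ^ d) ^ 2 + 1) ≤ 4 * t ^ d := by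
        have h2 : (1 : ℝ) ≤ ((l : ℝ) ^ 2) ^ d := one_le_pow₀ (one_le_pow₀ hl0)
        have h3 : ((l : ℝ) ^ 2) ^ d ≤ t ^ d := pow_le_pow_left₀ (by positivity) hlt d
        rw [h0]
        linarith
      have h2 : 4 * t ^ d = Real.exp (Real.log 4 + d * Real.log t) := by
        rw [Real.exp_add, Real.exp_log (by norm_num), Real.exp_nat_mul, Real.exp_log ht0]
      rw [h2] at h1
      refine h1.trans (Real.exp_le_exp.2 ?_)
      have h3 : (2 * Real.log 4 + d) * Real.log t ≤ t / (16 * d * (l : ℝ) ^ 2) / 2 := by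
        rw [div_div, le_div_iff₀ (by positivity)]
        calc (2 * Real.log 4 + d) * Real.log t * (16 * d * (l : ℝ) ^ 2 * 2)
            = (l : ℝ) ^ 2 * (A * Real.log t) := by rw [hA]; ring
          _ ≤ t := hl2t
      refine le_trans ?_ h3
      nlinarith
    have hret := ret_blocks hRC hRF hPATH hID φ hJ0 hJ hd hl1 ht0.le hcond
    obtain ⟨n, hn⟩ : ∃ n : (Fin d → Fin (L / l + 1)) → ℕ, n = fun i =>
      Fintype.card {v : V // blk φ l v = i} := ⟨_, rfl⟩
    have hsum : ∑ i, (n i : ℝ) = (L : ℝ) ^ d := by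
      have h1 : Fintype.card V = ∑ i, Fintype.card {v : V // blk φ l v = i} := by
        rw [← Fintype.card_sigma]
        exact Fintype.card_congr (Equiv.sigmaFiberEquiv (blk φ l)).symm
      have h2 : Fintype.card V = L ^ d := by
        rw [Fintype.card_congr φ, Fintype.card_fun, Fintype.card_fin, Fintype.card_fin]
      rw [hn]
      rw [h2] at h1
      exact_mod_cast h1.symm
    have hlf := sum_log_fact n hLd hsum
    have hM0 : 0 < ∏ i : Fin d → Fin (L / l + 1), 2 / ((n i).factorial : ℝ) :=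
      Finset.prod_pos fun i _ => by
        have : (0 : ℝ) < ((n i).factorial : ℝ) := by exact_mod_cast Nat.factorial_pos _
        positivity
    have hent := ent_ge (stirLaw J t) hlaw0 hlaw1 hM0 (fun g => (law_max J t g).trans (by
      rw [hn]; exact hret))
    refine le_trans ?_ hent
    have hlogM : Real.log (∏ i : Fin d → Fin (L / l + 1), 2 / ((n i).factorial : ℝ)) =
        (Fintype.card (Fin d → Fin (L / l + 1)) : ℝ) * Real.log 2 -
          ∑ i, Real.log ((n i).factorial : ℝ) := by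
      rw [Real.log_prod (fun i _ => by
        have : (0 : ℝ) < ((n i).factorial : ℝ) := by exact_mod_cast Nat.factorial_pos _
        positivity)]
      have h1 : ∀ i : Fin d → Fin (L / l + 1), Real.log (2 / ((n i).factorial : ℝ)) =
          Real.log 2 - Real.log ((n i).factorial : ℝ) := by
        intro i
        have : (0 : ℝ) < ((n i).factorial : ℝ) := by exact_mod_cast Nat.factorial_pos _
        rw [Real.log_div (by norm_num) this.ne']
      rw [Finset.sum_congr rfl fun i _ => h1 i, Finset.sum_sub_distrib, Finset.sum_const,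
        Finset.card_univ, nsmul_eq_mul]
    rw [hlogM]
    have hcardI : (Fintype.card (Fin d → Fin (L / l + 1)) : ℝ) = ((L / l + 1 : ℕ) : ℝ) ^ d := by
      rw [Fintype.card_fun, Fintype.card_fin, Fintype.card_fin]
      push_cast
      rfl
    have hblocks : ((L / l + 1 : ℕ) : ℝ) ≤ 4 * L * u := by
      have h1 : ((L / l : ℕ) : ℝ) ≤ (L : ℝ) / l := Nat.cast_div_le
      have h2 : 1 ≤ (L : ℝ) / l := by rw [le_div_iff₀ (by linarith)]; linarith
      have h3 : (L : ℝ) / l = L * (1 / l) := by ring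
      have h4 : (L : ℝ) * (1 / l) ≤ L * (2 * u) := mul_le_mul_of_nonneg_left hlinv hLn
      push_cast
      linarith
    obtain ⟨m, hm⟩ : ∃ m : ℝ, m = ((L / l + 1 : ℕ) : ℝ) ^ d := ⟨_, rfl⟩
    have hm0 : 0 < m := by rw [hm]; positivity
    have hm1 : m ≤ (4 * L * u) ^ d := by
      rw [hm]; exact pow_le_pow_left₀ (by positivity) hblocks d
    have hm2 : m ≤ 4 ^ d * (L : ℝ) ^ d := by
      refine hm1.trans ?_
      rw [← mul_pow]
      refine pow_le_pow_left₀ (by positivity) ?_ d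
      nlinarith
    rw [hcardI, ← hm] at hlf ⊢
    have hlog2 : Real.log 2 ≤ 1 := by
      have := Real.log_two_lt_d9
      linarith
    have h5 : -(d * Real.log (4 * u)) ≤ Real.log ((L : ℝ) ^ d / m) := by
      have h6 : ((4 * u) ^ d)⁻¹ ≤ (L : ℝ) ^ d / m := by
        rw [le_div_iff₀ hm0, inv_mul_le_iff₀ (by positivity)]
        refine hm1.trans (le_of_eq ?_)
        rw [← mul_pow]
        congr 1
        ring
      have h7 := Real.log_le_log (by positivity) h6
      rw [Real.log_inv, Real.log_pow] at h7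
      exact h7
    have h8 : Real.log (4 * u) = Real.log 4 + Real.log u := by
      rw [Real.log_mul (by norm_num) hu0.ne']
    have h9 : m * Real.log 2 ≤ 4 ^ d * (L : ℝ) ^ d := by
      have : m * Real.log 2 ≤ m * 1 := mul_le_mul_of_nonneg_left hlog2 hm0.le
      linarith
    have h10 : (L : ℝ) ^ d * (-(d * Real.log (4 * u))) ≤ (L : ℝ) ^ d * Real.log ((L : ℝ) ^ d / m) :=
      mul_le_mul_of_nonneg_left h5 hLd.le
    rw [h8] at h10
    have h11 : Real.log u = (Real.log A + (Real.log (Real.log t) - Real.log t)) / 2 := by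
      rw [← hly]; linarith
    rw [h11] at h10
    have h12 : (L : ℝ) ^ d * ((d : ℝ) / 2 * (Real.log t - Real.log (Real.log t)) -
        ((d : ℝ) / 2 * Real.log A + d * Real.log 4 + 1 + 4 ^ d)) =
        (L : ℝ) ^ d * (-(d * (Real.log 4 + (Real.log A + (Real.log (Real.log t) -
          Real.log t)) / 2))) - (L : ℝ) ^ d - 4 ^ d * (L : ℝ) ^ d := by ring
    rw [h12]
    linarith
  · -- small times: the bound is negative
    have h0 : 0 ≤ ent (stirLaw J t) := by
      have h1 := ent_ge (stirLaw J t) hlaw0 hlaw1 one_pos (fun g => by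
        rw [← hlaw1]
        exact Finset.single_le_sum (fun g _ => hlaw0 g) (Finset.mem_univ g))
      rwa [Real.log_one, neg_zero] at h1
    refine le_trans ?_ h0
    have h1 : 0 ≤ Real.log u := Real.log_nonneg h.le
    have h2 : Real.log t - Real.log (Real.log t) ≤ Real.log A := by
      rw [hly] at hlu
      linarith
    have h3 : (d : ℝ) / 2 * (Real.log t - Real.log (Real.log t)) ≤ (d : ℝ) / 2 * Real.log A :=
      mul_le_mul_of_nonneg_left h2 (by positivity)
    have h4 : 0 ≤ d * Real.log 4 := by positivity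
    refine mul_nonpos_of_nonneg_of_nonpos hLd.le ?_
    linarith

end Pool.Agent.Y998.LP
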