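import Pool.Agent.Y998.LP.Low

/-!
# The law of stirring changes little under a nearest neighbour transposition
-/

set_option autoImplicit false

namespace Pool.Agent.Y998.LP

open Finset Equiv Filter Topology Pool.Agent.Y998.ST Pool.Agent.Y998.CN

section NN

variable {V : Type} [Fintype V] [DecidableEq V]

/-- `ℓ¹` distance of the law and its translate -/
noncomputable def NN (J : V → V → ℝ) (t : ℝ) (h : Perm V) : ℝ :=
  ∑ g, |stirLaw J t (h⁻¹ * g) - stirLaw J t g|

theorem NN_nonneg (J : V → V → ℝ) (t : ℝ) (h : Perm V) : 0 ≤ NN J t h :=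
  Finset.sum_nonneg fun _ _ => abs_nonneg _

theorem NN_one (J : V → V → ℝ) (t : ℝ) : NN J t 1 = 0 := by
  unfold NN
  simp

theorem NN_mul (J : V → V → ℝ) (t : ℝ) (g h : Perm V) : NN J t (g * h) ≤ NN J t g + NN J t h := by
  unfold NN
  have h1 : ∑ k, |stirLaw J t (h⁻¹ * k) - stirLaw J t k| =
      ∑ k, |stirLaw J t (h⁻¹ * (g⁻¹ * k)) - stirLaw J t (g⁻¹ * k)| := by
    rw [← Equiv.sum_comp (Equiv.mulLeft g⁻¹)]
    rfl
  rw [h1, ← Finset.sum_add_distrib]
  refine Finset.sum_le_sum fun k _ => ?_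
  have h2 : (g * h)⁻¹ * k = h⁻¹ * (g⁻¹ * k) := by group
  rw [h2, add_comm]
  have h3 := abs_add_le (stirLaw J t (h⁻¹ * (g⁻¹ * k)) - stirLaw J t (g⁻¹ * k))
    (stirLaw J t (g⁻¹ * k) - stirLaw J t k)
  rwa [sub_add_sub_cancel] at h3

theorem NN_conj {J : V → V → ℝ} (σ : Perm V) (hJ : ∀ x y, J (σ x) (σ y) = J x y) (t : ℝ)
    (h : Perm V) : NN J t (σ * h * σ⁻¹) = NN J t h := by
  unfold NN
  rw [← Equiv.sum_comp (MulAut.conj σ).toEquiv]
  refine Finset.sum_congr rfl fun g _ => ?_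
  have e1 : (MulAut.conj σ).toEquiv g = σ * g * σ⁻¹ := rfl
  have e2 : (σ * h * σ⁻¹)⁻¹ * (σ * g * σ⁻¹) = σ * (h⁻¹ * g) * σ⁻¹ := by group
  rw [e1, e2, law_conj σ hJ, law_conj σ hJ]

theorem sum_jr (J : V → V → ℝ) (w : Perm V → ℝ) :
    ∑ h, jr J h * w h = ∑ x, ∑ y, J x y / 2 * w (swap x y) := by
  unfold jr
  simp only [Finset.sum_mul]
  rw [Finset.sum_comm]
  refine Finset.sum_congr rfl fun x _ => ?_
  rw [Finset.sum_comm]
  refine Finset.sum_congr rfl fun y _ => ?_
  rw [Finset.sum_eq_single (swap x y)]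
  · rw [if_pos rfl, mul_one]
  · intro h _ hh
    rw [if_neg hh, mul_zero, zero_mul]
  · intro h; exact absurd (Finset.mem_univ _) h

end NN

/-- the logarithmic factor -/
noncomputable def ll (t : ℝ) (L : ℕ) : ℝ := 1 + Real.log (1 + Real.log (min t ((L : ℝ) ^ 2)))

theorem log_card_perm (d L : ℕ) [NeZero L] :
    Real.log (Fintype.card (Perm (Fin d → ZMod L))) ≤
      (L : ℝ) ^ d * ((d : ℝ) / 2 * Real.log ((L : ℝ) ^ 2)) := by
  have hL : (0 : ℝ) < L := by exact_mod_cast Nat.pos_of_ne_zero (NeZero.ne L)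
  rw [Fintype.card_perm]
  have hc : Fintype.card (Fin d → ZMod L) = L ^ d := by
    rw [Fintype.card_fun, ZMod.card, Fintype.card_fin]
  rw [hc]
  have h1 : ((L ^ d).factorial : ℝ) ≤ ((L : ℝ) ^ d) ^ (L ^ d) := by
    have := Nat.factorial_le_pow (L ^ d)
    exact_mod_cast this
  have h2 := Real.log_le_log (by exact_mod_cast Nat.factorial_pos _) h1
  rw [Real.log_pow, Real.log_pow] at h2
  refine h2.trans (le_of_eq ?_)
  rw [Real.log_pow]
  push_cast
  ring

theorem law_shift {V : Type} [Fintype V] [DecidableEq V] {J : V → V → ℝ}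
    (hJ : ∀ x y, 0 ≤ J x y) {s t : ℝ} (hs : 0 ≤ s) (hst : s ≤ t) :
    ent (stirLaw J s) ≤ ent (stirLaw J t) := by
  have h1 := ent_mono (stirLaw J (t - s)) (stirLaw J s) (law_nonneg hJ (by linarith))
    (law_sum J _) (law_nonneg hJ hs)
  have h2 : (fun g => ∑ k, stirLaw J (t - s) k * stirLaw J s (k⁻¹ * g)) = stirLaw J t := by
    funext g
    rw [← law_add]
    congr 1
    ring
  rwa [h2] at h1

/-- the increment of the entropy -/
theorem delta (hRC : S_RC) (hRF : S_RF) (hPATH : S_PATH) (hID : S_ID) (hUP : S_UP) (d : ℕ)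
    (hd : 1 ≤ d) : ∃ C : ℝ, 0 < C ∧ ∀ (L : ℕ) [NeZero L], 3 ≤ L → ∀ t : ℝ, 4 ≤ t →
      ent (stirLaw (nnRate d L) t) - ent (stirLaw (nnRate d L) (t / 2)) ≤
        C * (L : ℝ) ^ d * ll t L := by
  obtain ⟨C0, hC0, hlow⟩ := ent_low hRC hRF hPATH hID d hd
  obtain ⟨Cu, hCu, hup⟩ := hUP d hd
  have hd0 : (1 : ℝ) ≤ d := by exact_mod_cast hd
  refine ⟨d + Cu + C0, by positivity, fun L _ hL t ht => ?_⟩
  have hL3 : (3 : ℝ) ≤ L := by exact_mod_cast hL
  have hLd : (0 : ℝ) < (L : ℝ) ^ d := by positivity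
  have hL2 : (9 : ℝ) ≤ (L : ℝ) ^ 2 := by nlinarith
  obtain ⟨T, hT⟩ : ∃ T : ℝ, T = min t ((L : ℝ) ^ 2) := ⟨_, rfl⟩
  have hT4 : 4 ≤ T := by rw [hT]; exact le_min ht (by linarith)
  have hTt : T ≤ t := by rw [hT]; exact min_le_left _ _
  have hlogT : 0 < Real.log T := Real.log_pos (by linarith)
  have hlog2 : Real.log 2 ≤ 1 := by have := Real.log_two_lt_d9; linarith
  have hJ0 : ∀ x y, 0 ≤ nnRate d L x y := nn_nonneg
  -- upper bound
  have hU : ent (stirLaw (nnRate d L) t) ≤ (L : ℝ) ^ d * ((d : ℝ) / 2 * Real.log T + Cu) := by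
    rcases le_total t ((L : ℝ) ^ 2) with h | h
    · rw [hT, min_eq_left h]
      exact hup L hL t (by linarith)
    · rw [hT, min_eq_right h]
      have h1 := ent_le_card (stirLaw (nnRate d L) t) (law_nonneg hJ0 (by linarith)) (law_sum _ _)
      refine (h1.trans (log_card_perm d L)).trans (mul_le_mul_of_nonneg_left ?_ hLd.le)
      linarith
  -- lower bound
  have hW : (L : ℝ) ^ d * ((d : ℝ) / 2 * (Real.log T - Real.log 2 - Real.log (Real.log T)) - C0) ≤
      ent (stirLaw (nnRate d L) (t / 2)) := by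
    rcases le_total (t / 2) ((L : ℝ) ^ 2) with h | h
    · have h1 := hlow L (Fin d → ZMod L) (phi d L) (nnRate d L) hJ0 nn_adj (t / 2)
        (by linarith) h
      refine le_trans (mul_le_mul_of_nonneg_left ?_ hLd.le) h1
      have h2 : t / 2 ≤ T := by rw [hT]; exact le_min (by linarith) h
      have h3 : Real.log T - Real.log 2 ≤ Real.log (t / 2) := by
        rw [← Real.log_div (by linarith) (by norm_num)]
        exact Real.log_le_log (by linarith) (by linarith)
      have h4 : 0 < Real.log (t / 2) := Real.log_pos (by linarith)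
      have h5 : Real.log (Real.log (t / 2)) ≤ Real.log (Real.log T) :=
        Real.log_le_log h4 (Real.log_le_log (by linarith) h2)
      have h6 : (d : ℝ) / 2 * (Real.log T - Real.log 2 - Real.log (Real.log T)) ≤
          (d : ℝ) / 2 * (Real.log (t / 2) - Real.log (Real.log (t / 2))) :=
        mul_le_mul_of_nonneg_left (by linarith) (by positivity)
      linarith
    · have hTL : T = (L : ℝ) ^ 2 := by rw [hT]; exact min_eq_right (by linarith)
      have h1 := hlow L (Fin d → ZMod L) (phi d L) (nnRate d L) hJ0 nn_adj ((L : ℝ) ^ 2)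
        (by linarith) le_rfl
      have h2 := law_shift hJ0 (by positivity : (0 : ℝ) ≤ (L : ℝ) ^ 2) h
      refine le_trans (mul_le_mul_of_nonneg_left ?_ hLd.le) (h1.trans h2)
      rw [hTL]
      have h3 : 0 ≤ Real.log 2 := Real.log_nonneg (by norm_num)
      have h6 : (d : ℝ) / 2 * (Real.log ((L : ℝ) ^ 2) - Real.log 2 -
          Real.log (Real.log ((L : ℝ) ^ 2))) ≤
          (d : ℝ) / 2 * (Real.log ((L : ℝ) ^ 2) - Real.log (Real.log ((L : ℝ) ^ 2))) :=
        mul_le_mul_of_nonneg_left (by linarith) (by positivity)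
      linarith
  have h1 : Real.log (Real.log T) ≤ Real.log (1 + Real.log T) :=
    Real.log_le_log hlogT (by linarith)
  have h2 : 0 ≤ Real.log (1 + Real.log T) := Real.log_nonneg (by linarith)
  have h3 : ll t L = 1 + Real.log (1 + Real.log T) := by unfold ll; rw [← hT]
  rw [h3]
  have h4 : (d : ℝ) / 2 * Real.log 2 + (d : ℝ) / 2 * Real.log (Real.log T) + Cu + C0 ≤
      (d + Cu + C0) * (1 + Real.log (1 + Real.log T)) := by
    have h5 : (d : ℝ) / 2 * Real.log 2 ≤ (d : ℝ) / 2 * 1 :=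
      mul_le_mul_of_nonneg_left hlog2 (by positivity)
    have h6 : (d : ℝ) / 2 * Real.log (Real.log T) ≤ (d : ℝ) / 2 * Real.log (1 + Real.log T) :=
      mul_le_mul_of_nonneg_left h1 (by positivity)
    have h7 : 0 ≤ (Cu + C0) * Real.log (1 + Real.log T) := by positivity
    have h8 : 0 ≤ (d : ℝ) / 2 * Real.log (1 + Real.log T) := by positivity
    nlinarith
  have h5 := mul_le_mul_of_nonneg_left h4 hLd.le
  nlinarith

/-- The law changes little under a nearest neighbour transposition. -/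
theorem master (hRC : S_RC) (hRF : S_RF) (hPATH : S_PATH) (hID : S_ID) (hUP : S_UP)
    (hPOS : S_POS) (hENT : S_ENT) (d : ℕ) (hd : 1 ≤ d) : ∃ C : ℝ, 0 < C ∧
      ∀ (L : ℕ) [NeZero L], 3 ≤ L → ∀ t : ℝ, 4 ≤ t → ∀ (x : Fin d → ZMod L) (i : Fin d),
        NN (nnRate d L) t (swap x (Function.update x i (x i + 1))) ≤
          C * Real.sqrt (ll t L / t) := by
  obtain ⟨C, hC, hdel⟩ := delta hRC hRF hPATH hID hUP d hd
  refine ⟨Real.sqrt (8 * C), by positivity, fun L _ hL t ht x i => ?_⟩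
  have ht0 : 0 < t := by linarith
  have hL3 : (3 : ℝ) ≤ L := by exact_mod_cast hL
  have hLd : (0 : ℝ) < (L : ℝ) ^ d := by positivity
  have hJ0 : ∀ x y, 0 ≤ nnRate d L x y := nn_nonneg
  have hent := hENT (Perm (Fin d → ZMod L)) (fun t => stirLaw (nnRate d L) t) (jr (nnRate d L))
    (fun t ht g => hPOS d L hL t ht g) (fun t _ => law_sum _ t)
    (fun s t _ _ g => law_add _ s t g) (fun g => law_cont _ g) (fun h hh => law_slope _ h hh) t ht0
  have h1 := hent.trans (hdel L hL t ht)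
  have h2 : ∑ h, jr (nnRate d L) h * ((∑ g, |stirLaw (nnRate d L) t (h⁻¹ * g) -
      stirLaw (nnRate d L) t g|) ^ 2 / 2) =
      ∑ x, ∑ y, nnRate d L x y / 2 * (NN (nnRate d L) t (swap x y) ^ 2 / 2) :=
    sum_jr (nnRate d L) fun h => NN (nnRate d L) t h ^ 2 / 2
  rw [h2] at h1
  obtain ⟨a, ha⟩ : ∃ a : ℝ, a = NN (nnRate d L) t (swap x (Function.update x i (x i + 1))) :=
    ⟨_, rfl⟩
  have ha0 : 0 ≤ a := by rw [ha]; exact NN_nonneg _ _ _
  have h3 : ∀ x' : Fin d → ZMod L,
      NN (nnRate d L) t (swap x' (Function.update x' i (x' i + 1))) = a := by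
    intro x'
    have hσ : ∀ z : Fin d → ZMod L, Equiv.addRight (x' - x) z = z + (x' - x) := fun z => rfl
    have e1 : swap x' (Function.update x' i (x' i + 1)) =
        Equiv.addRight (x' - x) * swap x (Function.update x i (x i + 1)) *
          (Equiv.addRight (x' - x))⁻¹ := by
      rw [← swap_apply_apply, hσ, hσ, add_sub_cancel]
      congr 1
      funext j
      by_cases hj : j = i
      · subst hj
        simp only [Function.update_self, Pi.add_apply, Pi.sub_apply]
        ring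
      · simp only [Function.update_of_ne hj, Pi.add_apply, Pi.sub_apply]
        ring
    rw [e1, NN_conj _ (fun u v => by rw [hσ, hσ, nn_trans]), ha]
  have h4 : (L : ℝ) ^ d * (a ^ 2 / 4) ≤
      ∑ x, ∑ y, nnRate d L x y / 2 * (NN (nnRate d L) t (swap x y) ^ 2 / 2) := by
    have e1 : (L : ℝ) ^ d * (a ^ 2 / 4) = ∑ _x : Fin d → ZMod L, a ^ 2 / 4 := by
      rw [Finset.sum_const, Finset.card_univ, Fintype.card_fun, ZMod.card, Fintype.card_fin,
        nsmul_eq_mul]
      push_cast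
      rfl
    rw [e1]
    refine Finset.sum_le_sum fun z _ => ?_
    refine le_trans ?_ (Finset.single_le_sum (f := fun y => nnRate d L z y / 2 *
      (NN (nnRate d L) t (swap z y) ^ 2 / 2)) (fun y _ => ?_)
      (Finset.mem_univ (Function.update z i (z i + 1))))
    · rw [h3]
      have h5 : nnRate d L z (Function.update z i (z i + 1)) = 1 := by
        unfold nnRate
        rw [if_pos ⟨i, Or.inl rfl⟩]
      rw [h5]
      exact (by ring : a ^ 2 / 4 = 1 / 2 * (a ^ 2 / 2)).le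
    · have := hJ0 z y
      positivity
  have h5 : t / 2 * ((L : ℝ) ^ d * (a ^ 2 / 4)) ≤ C * (L : ℝ) ^ d * ll t L :=
    (mul_le_mul_of_nonneg_left h4 (by positivity)).trans h1
  have h6 : a ^ 2 ≤ 8 * C * (ll t L / t) := by
    have h7 : (L : ℝ) ^ d * (t * a ^ 2) ≤ (L : ℝ) ^ d * (8 * C * ll t L) := by nlinarith
    have h8 := le_of_mul_le_mul_left h7 hLd
    rw [← mul_div_assoc, le_div_iff₀ ht0]
    linarith
  rw [← ha, ← Real.sqrt_mul (by positivity)]
  exact Real.le_sqrt_of_sq_le h6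

end Pool.Agent.Y998.LP
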